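import Pool.Agent.KS6_38.HG.Exp

/-!
# Generic `k`-hypertournaments omitting a family: precise finite-language Ramsey expansions

Q1 of MP_638395_co asks for a finite-language Ramsey expansion of the generic `H_4`-free
3-hypertournament.  Here: the answer is yes for all arities `k ≥ 3`, with `H_{k+1}` in place of
`H_4`, and for all families of forbidden finite structures in which any two points belong to an
unbalanced `(k+1)`-tuple; the expansion is by a linear order, its age consists of all linear
orderings of members of the class, and it has the expansion (ordering) property.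

The definitions used in the statement are in `Pool.Agent.KS6_38.HG.Defs` and (`HT`, `pos`, `Unbal`)
in `Pool.Agent.KS6_38.HG.Sgn`.
-/

set_option autoImplicit false

namespace Pool.Agent.Results.MP_638395_co.AllArities

open FirstOrder Language Structure CategoryTheory Pool.Agent.KS6_38.HG

/-- (1) Let `k ≥ 3` and let `𝓕` be a family of finite structures with at least two points and one
`k`-ary relation, in each of which any two points belong to an unbalanced `(k+1)`-tuple. Then the
class `Forb k 𝓕` of the finite `k`-hypertournaments which omit `𝓕` has a Fraisse limit; whichever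
copy `M` of it is taken, there is a linear order `<` on `M` such that `(M, R, <)` is
ultrahomogeneous, its age consists of all `(A, R, <)` with `A` in the class and `<` any linear
order, and has the Ramsey property; moreover the class has the expansion property for linear
orders.

(2) The hypothesis holds for every set of `k`-hypertournaments `T k P` with `k + 1` points such
that `2 |P| + 3 ≤ k` or `2 |Pᶜ| + 3 ≤ k`; in particular for `H_{k+1} = T k univ`, for all `k ≥ 3`.

(3) For `k = 3` and `𝓕 = {H_4}` the class is the class `𝒲` of the problem, so for the generic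
`H_4`-free 3-hypertournament all conclusions of (1) hold. -/
theorem result :
    (∀ k : ℕ, 3 ≤ k → ∀ 𝓕 : Set (Bundled.{0} (LR k).Structure), PairwiseUnbalanced k 𝓕 →
      (∃ (M : Type) (_ : (LR k).Structure M) (_ : Countable M), IsFraisseLimit (Forb k 𝓕) M) ∧
      (∀ (M : Type) [(LR k).Structure M] [Countable M], IsFraisseLimit (Forb k 𝓕) M →
        ∃ lt : M → M → Prop, IsStrictTotalOrder M lt ∧
          IsFiniteLanguageRamseyExpansion (incl k) M (expandBy k M lt) ∧
          @age (LRlt k) M (expandBy k M lt) = OrderedForb k 𝓕) ∧
      ExpansionProperty k (Forb k 𝓕)) ∧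
    (∀ k : ℕ, 3 ≤ k →
      (∀ 𝒬 : Set (Set (Fin (k + 1))), (∀ P ∈ 𝒬, 2 * P.ncard + 3 ≤ k ∨ 2 * Pᶜ.ncard + 3 ≤ k) →
        PairwiseUnbalanced k {F | ∃ P ∈ 𝒬, F = ⟨T k P, instT k P⟩}) ∧
      PairwiseUnbalanced k {⟨H k, instT k Set.univ⟩} ∧
      ∀ P : Set (Fin (k + 1)), IsHypertournament k (T k P)) ∧
    (Forb 3 {⟨H 3, instT 3 Set.univ⟩} = W ∧
      (∃ (M : Type) (_ : (LR 3).Structure M) (_ : Countable M), IsFraisseLimit W M) ∧
      (∀ (M : Type) [(LR 3).Structure M] [Countable M], IsFraisseLimit W M →
        ∃ lt : M → M → Prop, IsStrictTotalOrder M lt ∧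
          IsFiniteLanguageRamseyExpansion (incl 3) M (expandBy 3 M lt) ∧
          @age (LRlt 3) M (expandBy 3 M lt) = OrderedForb 3 {⟨H 3, instT 3 Set.univ⟩}) ∧
      ExpansionProperty 3 W) := by
  refine ⟨fun k hk 𝓕 h => main hk h, fun k hk => ⟨fun 𝒬 h => pairwiseUnbalanced_T hk 𝒬 h,
    pairwiseUnbalanced_H hk, fun P => T_ht P⟩, forb_eq, ?_⟩
  have h := main (le_refl 3) (pairwiseUnbalanced_H (le_refl 3))
  rw [forb_eq] at h
  exact h

end Pool.Agent.Results.MP_638395_co.AllArities
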